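import Pool.Agent.H82.HD.TR
import Pool.Agent.H22.G.HB

/-! MP_ee74d2_an, theorem HD: the bush of the tubes through a cube (BUS). -/

set_option autoImplicit false

namespace Pool.Agent.H85.HD

open Pool.Agent.H83.G
open Pool.Agent.H82.HD
open Pool.Agent.H22.G (co Fm Fm_pos hg2b card_fib dbl far_w far_many cap_count rp)
open scoped RealInnerProductSpace

/-- the tubes through two distant cubes -/
theorem bush_upper {m : ℕ} {R δ ε₀ : ℝ} (hR : 1 ≤ R) (hδ : 0 ≤ δ) (hε : 0 ≤ ε₀) (q₀ q : Zi m)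
    (S : Finset (Pk m))
    (hS : ∀ T ∈ S, ‖ctr (sR R) T.1‖ ≤ 3 ∧ Inc R δ T q₀ ∧ Inc R δ T q ∧
      1 < |(bl R (R ^ (1 - ε₀)) q).2.2 - (bl R (R ^ (1 - ε₀)) q₀).2.2|) :
    (S.card : ℝ) ≤ ((3 * Fm m) ^ (m + 2) * (3 * (((m : ℝ) + 1) * Fm m)) ^ m) *
      R ^ (6 * ((m : ℝ) + 2) * (δ + ε₀)) := by
  classical
  have hR0 : 0 < R := by linarith
  have hF := Fm_pos (m := m)
  have hm0 : (0 : ℝ) ≤ m := Nat.cast_nonneg m
  have hr0 : 0 < R ^ (1 - ε₀) := Real.rpow_pos_of_pos hR0 _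
  rcases S.eq_empty_or_nonempty with rfl | ⟨T0, hT0⟩
  · simp only [Finset.card_empty, Nat.cast_zero]
    positivity
  have hw := far_w hr0 (hS T0 hT0).2.2.2
  have h := card_fib S (fun T => T.1) ((3 * Fm m) ^ (m + 2) * R ^ (((m : ℝ) + 2) * δ))
    ((3 * (((m : ℝ) + 1) * Fm m * R ^ (2 * δ + ε₀))) ^ m) (by positivity)
    (fun k hk => by
      obtain ⟨T1, hT1, rfl⟩ := Finset.mem_image.1 hk
      refine hg2b hR hδ T1.1 q₀ _ (hS T1 hT1).1 fun T hT => ?_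
      obtain ⟨h1, h2⟩ := Finset.mem_filter.1 hT
      exact ⟨h2, (hS T h1).2.1⟩)
    (by
      refine cap_count hR hδ hε hw _ fun k hk => ?_
      obtain ⟨T1, hT1, rfl⟩ := Finset.mem_image.1 hk
      have h2 := hS T1 hT1
      exact ⟨h2.1, T1, rfl, h2.2.1, h2.2.2.1⟩)
  refine h.trans ?_
  have e2 : (R ^ (2 * δ + ε₀)) ^ m = R ^ ((2 * δ + ε₀) * (m : ℝ)) := by
    rw [← Real.rpow_natCast, ← Real.rpow_mul hR0.le]
  have e3 : (3 * (((m : ℝ) + 1) * Fm m * R ^ (2 * δ + ε₀))) ^ m =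
      (3 * (((m : ℝ) + 1) * Fm m)) ^ m * (R ^ (2 * δ + ε₀)) ^ m := by
    rw [← mul_pow]
    ring
  have e4 : (3 * Fm m) ^ (m + 2) * R ^ (((m : ℝ) + 2) * δ) *
      (3 * (((m : ℝ) + 1) * Fm m * R ^ (2 * δ + ε₀))) ^ m =
      ((3 * Fm m) ^ (m + 2) * (3 * (((m : ℝ) + 1) * Fm m)) ^ m) *
        (R ^ (((m : ℝ) + 2) * δ) * R ^ ((2 * δ + ε₀) * (m : ℝ))) := by
    rw [e3, e2]
    ring
  rw [e4, ← Real.rpow_add hR0]
  refine mul_le_mul_of_nonneg_left (rp hR ?_) (by positivity)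
  nlinarith [mul_nonneg hm0 hδ, mul_nonneg hm0 hε]

theorem bus : T_BUS := by
  classical
  intro m
  have hF := Fm_pos (m := m)
  have hm0 : (0 : ℝ) ≤ m := Nat.cast_nonneg m
  set C1 : ℝ := (3 * Fm m) ^ (m + 2) * (3 * (((m : ℝ) + 1) * Fm m)) ^ m with hC1
  have hC10 : 0 ≤ C1 := by positivity
  have hD : 0 ≤ (36 * Fm m) ^ (m + 2) := by positivity
  refine ⟨2 * C1 + 2 * (36 * Fm m) ^ (m + 2) + 1, by linarith, ?_⟩
  intro R δ ε₀ TT QQ q₀ l k hR hδ hε hde hT hk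
  have hR0 : 0 < R := by linarith
  set Ls := R ^ (6 * ((m : ℝ) + 2) * (δ + ε₀)) with hLs
  have hLs0 : 0 < Ls := Real.rpow_pos_of_pos hR0 _
  set f : Zi m → Zi m := bl R (R ^ (1 - ε₀)) with hf
  have h := dbl QQ TT (fun q T => Inc R δ T q ∧ 1 < |(f q).2.2 - (f q₀).2.2|)
    ((2 : ℝ) ^ l * 2 ^ k / 2) (C1 * Ls) (fun T hTT => by
      obtain ⟨h1, h2, h3⟩ := hT T hTT
      refine far_many hR hδ hde h1 h2
        (fun B => 2 ^ l ≤ mu QQ R (R ^ (1 - ε₀)) δ T B ∧ mu QQ R (R ^ (1 - ε₀)) δ T B < 2 ^ (l + 1))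
        f hf (fun B hB => ?_) ?_ (by linarith)
      · have h4 := hB.1
        unfold mu at h4
        convert h4 using 2
      · unfold nB at h3
        convert h3 using 2) (fun q hq => by
      refine bush_upper hR hδ hε q₀ q _ fun T hT' => ?_
      obtain ⟨h1, h2, h3⟩ := Finset.mem_filter.1 hT'
      obtain ⟨h4, h5, -⟩ := hT T h1
      exact ⟨h4, h5, h2, h3⟩)
  have e : (2 : ℝ) ^ (l + k) = 2 * (2 ^ l * 2 ^ k / 2) := by
    rw [pow_add]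
    ring
  rw [e]
  have hQ : (0 : ℝ) ≤ QQ.card := Nat.cast_nonneg _
  calc (TT.card : ℝ) * (2 * (2 ^ l * 2 ^ k / 2)) = 2 * (TT.card * (2 ^ l * 2 ^ k / 2)) := by ring
    _ ≤ 2 * (C1 * Ls * QQ.card) := mul_le_mul_of_nonneg_left h (by norm_num)
    _ = (2 * C1) * (Ls * QQ.card) := by ring
    _ ≤ (2 * C1 + 2 * (36 * Fm m) ^ (m + 2) + 1) * (Ls * QQ.card) :=
        mul_le_mul_of_nonneg_right (by linarith) (by positivity)
    _ = _ := by ring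

theorem pf_BUS (_hHG1 : Pool.Agent.H22.G.T_HG1) (_hHG2 : Pool.Agent.H22.G.T_HG2) (_hPUS : T_PUS) :
    T_BUS := bus

end Pool.Agent.H85.HD
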